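import Pool.Agent.H35.S8.Ideal
import Pool.Agent.H86.S8.Stm

set_option autoImplicit false

/-!
# The ideal argument, statement of `H86/S8/Stm.lean`
-/

namespace Pool.Agent.H35.S8

open Pool.Agent.H35.TY
open Pool.Agent.H86.S8 (Fs SIdeal)

variable {α : Type}

theorem bd_of_fs {V : NC α} (h : Fs V) : Bd V := by
  obtain ⟨L, hL⟩ := (h.image List.length).bddAbove
  refine ⟨L, fun w hw => ?_⟩
  by_contra hc
  have := hL ⟨w, hc, rfl⟩
  omega

theorem fs_of_bd [Finite α] {V : NC α} (h : Bd V) : Fs V := by
  obtain ⟨L, hL⟩ := h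
  refine (List.finite_length_le α L).subset fun w hw => ?_
  by_contra hc
  exact hw (hL w (by simpa using hc))

theorem eq_of_rel {S Y : NC α} (hS0 : S [] = 1) (hS4 : ∀ w : List α, 4 ≤ w.length → S w = 0)
    (hY : ∀ w : List α, w.length ≠ 1 → Y w = 0)
    (h : ∀ z z' : α, S [z', z] = (1 - (S [z] + Y [z])) * Y [z'] ∧
      ∀ x, S [x, z', z] = (S [z] + Y [z]) * Y [x]) :
    S = (1 - Y * om) * (1 + nc fun w => if w.length = 1 then S w + Y w else 0) := by
  set T : NC α := 1 + nc fun w => if w.length = 1 then S w + Y w else 0 with hT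
  have t0 : T [] = 1 := by
    rw [hT, TY.add_apply, one_nil, nc_apply]
    simp
  have t1 : ∀ x : α, T [x] = S [x] + Y [x] := by
    intro x
    rw [hT, TY.add_apply, one_cons, nc_apply]
    simp
  have t2 : ∀ w : List α, 2 ≤ w.length → T w = 0 := by
    intro w hw
    rw [hT, TY.add_apply, nc_apply, if_neg (by omega), add_zero]
    cases w with
    | nil => simp at hw
    | cons a w => exact one_cons a w
  set U : NC α := 1 - Y * om with hU
  have u0 : U [] = 1 := by
    rw [hU, TY.sub_apply, mul_om_nil, one_nil, hY [] (by simp), sub_zero]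
  have u1 : ∀ x : α, U [x] = -Y [x] := by
    intro x
    rw [hU, TY.sub_apply, one_cons, ← List.nil_append [x], mul_om_snoc, hY [] (by simp)]
    ring
  have u2 : ∀ x x' : α, U [x, x'] = Y [x] := by
    intro x x'
    have : ([x, x'] : List α) = [x] ++ [x'] := rfl
    rw [hU, TY.sub_apply, one_cons, this, mul_om_snoc, hY ([x] ++ [x']) (by simp)]
    ring
  have u3 : ∀ w : List α, 3 ≤ w.length → U w = 0 := by
    intro w hw
    rcases List.eq_nil_or_concat w with h1 | ⟨v, x, h1⟩
    · rw [h1] at hw
      simp at hw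
    · rw [List.concat_eq_append] at h1
      subst h1
      rw [List.length_append, List.length_singleton] at hw
      rw [hU, TY.sub_apply, mul_om_snoc, hY v (by omega), hY (v ++ [x]) (by
        rw [List.length_append, List.length_singleton]; omega), one_snoc]
      ring
  funext w
  rcases w with _ | ⟨a, _ | ⟨b, _ | ⟨c, w⟩⟩⟩
  · rw [mul_nil, u0, t0, hS0, one_mul]
  · rw [mul_cons, mul_nil, nc_apply, u0, u1, t0, t1]
    ring
  · rw [mul_cons, mul_cons, mul_nil]
    simp only [nc_apply]
    rw [u0, u1, u2, t0, t1, t2 _ (by simp), (h b a).1]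
    ring
  · rcases w with _ | ⟨d, w⟩
    · rw [mul_cons, mul_cons, mul_cons, mul_nil]
      simp only [nc_apply]
      rw [u0, u1, u2, u3 [a, b, c] (by simp), t0, t1, t2 [b, c] (by simp), t2 [a, b, c] (by simp),
        (h c b).2 a]
      ring
    · rw [hS4 _ (by simp), mul_eq_sum]
      symm
      refine Finset.sum_eq_zero fun i _ => ?_
      rcases Nat.lt_or_ge i 3 with h1 | h1
      · rw [t2 (List.drop i _) (by rw [List.length_drop]; simp only [List.length_cons]; omega),
          mul_zero]
      · rcases Nat.lt_or_ge (w.length + 4) i with h2 | h2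
        · rw [List.take_of_length_le (by simp only [List.length_cons]; omega), u3 _ (by simp),
            zero_mul]
        · rw [u3 (List.take i _) (by
            rw [List.length_take]; simp only [List.length_cons]; omega), zero_mul]

theorem sIdeal : SIdeal := by
  intro α _ _ P S Y _ hY1 _ hy hS0 hS3 hD hS
  obtain ⟨y, hy⟩ := hy
  have hY : ∀ w : List α, w.length ≠ 1 → Y w = 0 := fun w hw => by
    by_contra hc
    exact hw (hY1 w hc)
  by_cases hP : Bd P
  · exact Or.inl (fs_of_bd hP)
  · exact Or.inr (eq_of_rel hS0 (fun w hw => hS3 w hw) hY fun z z' =>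
      alt (bd_of_fs hD) rfl (bd_of_fs hS) hS0 (fun w hw => hS3 w hw) hY hy hP z z')

end Pool.Agent.H35.S8
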