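import Pool.Agent.H35.TY.NC

set_option autoImplicit false

/-!
# The right ideal of all series `q` with `P q` of bounded length
-/

namespace Pool.Agent.H35.S8

open Pool.Agent.H35.TY

variable {α : Type}

/-- The words of the series have bounded length. -/
def Bd (V : NC α) : Prop := ∃ L : ℕ, ∀ w : List α, L < w.length → V w = 0

/-- Remove the last letter. -/
def rd (x : α) (V : NC α) : NC α := fun w => V (w ++ [x])

theorem rd_apply (x : α) (V : NC α) (w : List α) : rd x V w = V (w ++ [x]) := rfl

theorem smul_apply (k : ℤ) (V : NC α) (w : List α) : (k • V) w = k * V w := rfl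

theorem one_snoc (w : List α) (x : α) : (1 : NC α) (w ++ [x]) = 0 := by cases w <;> rfl

theorem om_snoc (w : List α) (x : α) : (om : NC α) (w ++ [x]) = -(1 : NC α) w := by
  rcases w with _ | ⟨a, _ | ⟨b, w⟩⟩ <;> rfl

theorem mul_snoc (V W : NC α) (w : List α) (x : α) :
    (V * W) (w ++ [x]) = (V * rd x W) w + V (w ++ [x]) * W [] := by
  induction w generalizing V with
  | nil =>
    rw [List.nil_append, mul_cons, mul_nil, mul_nil]
    rfl
  | cons a w ih =>
    rw [List.cons_append, mul_cons, mul_cons, ih]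
    simp only [nc_apply, rd_apply, List.cons_append]
    ring

theorem rd_om_mul (x : α) (M : NC α) : rd x (om * M) = om * rd x M - M [] • (1 : NC α) := by
  funext w
  rw [rd_apply, mul_snoc, om_snoc, TY.sub_apply, smul_apply]
  ring

theorem rd_add (x : α) (V W : NC α) : rd x (V + W) = rd x V + rd x W := rfl
theorem rd_sub (x : α) (V W : NC α) : rd x (V - W) = rd x V - rd x W := rfl
theorem rd_smul (x : α) (k : ℤ) (V : NC α) : rd x (k • V) = k • rd x V := rfl
theorem rd_one (x : α) : rd x (1 : NC α) = 0 := by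
  funext w
  rw [rd_apply, one_snoc]
  rfl

theorem Bd.add {V W : NC α} (hV : Bd V) (hW : Bd W) : Bd (V + W) := by
  obtain ⟨L, hL⟩ := hV
  obtain ⟨M, hM⟩ := hW
  refine ⟨max L M, fun w hw => ?_⟩
  rw [TY.add_apply, hL w (lt_of_le_of_lt (le_max_left _ _) hw),
    hM w (lt_of_le_of_lt (le_max_right _ _) hw), add_zero]

theorem Bd.smul {V : NC α} (hV : Bd V) (k : ℤ) : Bd (k • V) := by
  obtain ⟨L, hL⟩ := hV
  exact ⟨L, fun w hw => by rw [smul_apply, hL w hw, mul_zero]⟩

theorem Bd.neg {V : NC α} (hV : Bd V) : Bd (-V) := by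
  obtain ⟨L, hL⟩ := hV
  exact ⟨L, fun w hw => by rw [neg_apply, hL w hw, neg_zero]⟩

theorem Bd.sub {V W : NC α} (hV : Bd V) (hW : Bd W) : Bd (V - W) := by
  rw [sub_eq_add_neg]
  exact hV.add hW.neg

theorem Bd.of_smul {V : NC α} {k : ℤ} (hk : k ≠ 0) (hV : Bd (k • V)) : Bd V := by
  obtain ⟨L, hL⟩ := hV
  exact ⟨L, fun w hw => by
    have := hL w hw
    rw [smul_apply] at this
    exact (mul_eq_zero.1 this).resolve_left hk⟩

theorem Bd.mul {V W : NC α} (hV : Bd V) (hW : Bd W) : Bd (V * W) := by
  obtain ⟨L, hL⟩ := hV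
  obtain ⟨M, hM⟩ := hW
  refine ⟨L + M, fun w hw => ?_⟩
  rw [mul_eq_sum]
  refine Finset.sum_eq_zero fun i hi => ?_
  have hi' : i ≤ w.length := by
    have := Finset.mem_range.1 hi
    omega
  rcases Nat.lt_or_ge L i with h | h
  · rw [hL (w.take i) (by rw [List.length_take]; omega), zero_mul]
  · rw [hM (w.drop i) (by rw [List.length_drop]; omega), mul_zero]

/-- `P q` has bounded length. -/
def J (P q : NC α) : Prop := Bd (P * q)

section
variable {P : NC α}

theorem J.add {q r : NC α} (hq : J P q) (hr : J P r) : J P (q + r) := by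
  unfold J
  rw [mul_add]
  exact Bd.add hq hr

theorem J.sub {q r : NC α} (hq : J P q) (hr : J P r) : J P (q - r) := by
  unfold J
  rw [mul_sub]
  exact Bd.sub hq hr

theorem mul_zsmul_nc (k : ℤ) (q : NC α) : P * (k • q) = k • (P * q) := by
  rw [mul_smul_comm]

theorem J.smul {q : NC α} (hq : J P q) (k : ℤ) : J P (k • q) := by
  unfold J
  rw [mul_zsmul_nc]
  exact Bd.smul hq k

theorem J.of_smul {q : NC α} {k : ℤ} (hk : k ≠ 0) (hq : J P (k • q)) : J P q := by
  unfold J at hq ⊢
  rw [mul_zsmul_nc] at hq
  exact Bd.of_smul hk hq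

theorem J.rd {q : NC α} (hq : J P q) (h0 : q [] = 0) (x : α) : J P (rd x q) := by
  obtain ⟨L, hL⟩ := hq
  refine ⟨L, fun w hw => ?_⟩
  have h1 := hL (w ++ [x]) (by rw [List.length_append]; omega)
  rw [mul_snoc, h0, mul_zero, add_zero] at h1
  exact h1

/-- The alternative of case A', part (a). -/
theorem alt {P S Y B : NC α} (hB : Bd B) (hD : P * (1 - om * Y) = B) (hS : Bd (P * (om * S)))
    (hS0 : S [] = 1) (hS4 : ∀ w : List α, 4 ≤ w.length → S w = 0)
    (hY : ∀ w : List α, w.length ≠ 1 → Y w = 0) {y : α} (hy : Y [y] = 1) (hP : ¬ Bd P) (z z' : α) :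
    S [z', z] = (1 - (S [z] + Y [z])) * Y [z'] ∧
      ∀ x, S [x, z', z] = (S [z] + Y [z]) * Y [x] := by
  have hY0 : Y [] = 0 := hY [] (by simp)
  have hYB : Bd Y := ⟨1, fun w hw => hY w (by omega)⟩
  have jD : J P (1 - om * Y) := by
    unfold J
    rw [hD]
    exact hB
  -- no constants, no multiples of `1 - A`
  have f1 : ∀ k : ℤ, J P (k • (1 : NC α)) → k = 0 := by
    intro k hk
    by_contra h
    have := J.of_smul h hk
    unfold J at this
    rw [mul_one] at this
    exact hP this
  have f2 : ∀ k : ℤ, J P (k • (om : NC α)) → k = 0 := by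
    intro k hk
    by_contra h
    have h1 := J.of_smul h hk
    apply hP
    have h2 : P = B + P * om * Y := by
      rw [← hD]
      noncomm_ring
    rw [h2]
    exact hB.add (Bd.mul h1 hYB)
  have j0 : J P (om * (S + Y) - 1) := by
    have h1 : J P (om * S - (1 - om * Y)) := J.sub hS jD
    have h2 : (om * S - (1 - om * Y) : NC α) = om * (S + Y) - 1 := by noncomm_ring
    rwa [h2] at h1
  set lam := S [z] + Y [z] with hlam
  set R : NC α := rd z (S + Y) with hR
  have j1 : J P (om * R - 1) := by
    have h1 := J.rd j0 (by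
      rw [TY.sub_apply, mul_nil, om_nil, TY.add_apply, hS0, hY0]
      rfl) z
    have h2 : rd z (om * (S + Y) - 1 : NC α) = om * R - 1 := by
      rw [rd_sub, rd_om_mul, rd_one, TY.add_apply, hS0, hY0, sub_zero, add_zero, one_smul]
    rwa [h2] at h1
  have hR0 : R [] = lam := rfl
  have j2 : J P (om * (R + (lam - 1) • Y) - lam • (1 : NC α)) := by
    have h1 := J.sub j1 (J.smul jD (lam - 1))
    have h2 : (om * R - 1 - (lam - 1) • (1 - om * Y) : NC α) =
        om * (R + (lam - 1) • Y) - lam • (1 : NC α) := by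
      rw [mul_add, mul_smul_comm, smul_sub, sub_smul, sub_smul, one_smul, one_smul]
      abel
    rwa [h2] at h1
  set W : NC α := rd z' (R + (lam - 1) • Y) with hW
  have j3 : J P (om * W - lam • (1 : NC α)) := by
    have h1 := J.rd j2 (by
      rw [TY.sub_apply, mul_nil, om_nil, TY.add_apply, smul_apply, smul_apply, hR0, hY0]
      show 1 * (lam + (lam - 1) * 0) - lam * 1 = 0
      ring) z'
    have h2 : rd z' (om * (R + (lam - 1) • Y) - lam • (1 : NC α) : NC α) =
        om * W - lam • (1 : NC α) := by
      rw [rd_sub, rd_om_mul, rd_smul, rd_one, TY.add_apply, smul_apply, hR0, hY0, smul_zero,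
        mul_zero, add_zero, sub_zero]
    rwa [h2] at h1
  set c := W [] with hc
  have j4 : J P (om * (W + (c - lam) • Y) - c • (1 : NC α)) := by
    have h1 := J.sub j3 (J.smul jD (c - lam))
    have h2 : (om * W - lam • (1 : NC α) - (c - lam) • (1 - om * Y) : NC α) =
        om * (W + (c - lam) • Y) - c • (1 : NC α) := by
      rw [mul_add, mul_smul_comm, smul_sub, sub_smul, sub_smul]
      abel
    rwa [h2] at h1
  set M : NC α := W + (c - lam) • Y with hM
  have hM0 : M [] = c := by
    rw [hM, TY.add_apply, smul_apply, hY0, mul_zero, add_zero]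
  have hM2 : ∀ w : List α, 2 ≤ w.length → M w = 0 := by
    intro w hw
    rw [hM, TY.add_apply, smul_apply, hY w (by omega), mul_zero, add_zero, hW, rd_apply, TY.add_apply,
      smul_apply, hY (w ++ [z']) (by rw [List.length_append, List.length_singleton]; omega), mul_zero, add_zero, hR,
      rd_apply, TY.add_apply, hS4 _ (by rw [List.length_append, List.length_append, List.length_singleton, List.length_singleton]; omega),
      hY _ (by rw [List.length_append, List.length_append, List.length_singleton, List.length_singleton]; omega), add_zero]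
  have j5 : ∀ x : α, J P (M [x] • om - c • (1 : NC α)) := by
    intro x
    have h1 := J.rd j4 (by
      rw [TY.sub_apply, mul_nil, om_nil, hM0, smul_apply]
      show 1 * c - c * 1 = 0
      ring) x
    have h3 : rd x M = M [x] • (1 : NC α) := by
      funext w
      rw [rd_apply, smul_apply]
      cases w with
      | nil => rw [one_nil, mul_one]; rfl
      | cons a w =>
        rw [one_cons, mul_zero]
        exact hM2 _ (by simp)
    have h2 : rd x (om * M - c • (1 : NC α) : NC α) = M [x] • om - c • (1 : NC α) := by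
      rw [rd_sub, rd_om_mul, rd_smul, rd_one, smul_zero, sub_zero, hM0, h3, mul_smul_comm, mul_one]
    rwa [h2] at h1
  have heq : ∀ x x' : α, M [x] = M [x'] := by
    intro x x'
    have h1 := J.sub (j5 x) (j5 x')
    have h2 : (M [x] • om - c • (1 : NC α) - (M [x'] • om - c • (1 : NC α)) : NC α) =
        (M [x] - M [x']) • om := by
      rw [sub_smul]
      abel
    rw [h2] at h1
    have := f2 _ h1
    omega
  set m := M [y] with hm
  -- two combinations
  have j6 : J P (m • om - c • (1 : NC α)) := j5 y
  have j7 : J P (rd y ((m - c) • (1 - om * Y) - (m • om - c • (1 : NC α)))) := by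
    refine J.rd (J.sub (J.smul jD (m - c)) j6) ?_ y
    rw [TY.sub_apply, smul_apply, TY.sub_apply, mul_nil, om_nil, hY0, TY.sub_apply, smul_apply, smul_apply,
      om_nil]
    show (m - c) * (1 - 1 * 0) - (m * 1 - c * 1) = 0
    ring
  have h8 : rd y ((m - c) • (1 - om * Y) - (m • om - c • (1 : NC α))) =
      m • (1 : NC α) - (m - c) • om := by
    have h3 : rd y Y = (1 : NC α) := by
      funext w
      rw [rd_apply]
      cases w with
      | nil => exact hy
      | cons a w =>
        rw [one_cons]
        exact hY _ (by simp)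
    have h4 : rd y (om : NC α) = -1 := by
      funext w
      rw [rd_apply, om_snoc]
      rfl
    rw [rd_sub, rd_smul, rd_sub, rd_one, rd_om_mul, hY0, h3, rd_sub, rd_smul, rd_smul, rd_one, h4,
      zero_smul, sub_zero, mul_one, smul_zero, sub_zero, zero_sub, smul_neg, smul_neg]
    abel
  rw [h8] at j7
  -- `m (m om - c) ... `
  have h9 : m * m - m * c + c * c = 0 := by
    apply f1
    have h1 := J.add (J.smul j7 m) (J.smul j6 (m - c))
    have h2 : (m • (m • (1 : NC α) - (m - c) • om) + (m - c) • (m • om - c • (1 : NC α)) : NC α) =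
        (m * m - m * c + c * c) • (1 : NC α) := by
      simp only [smul_sub, smul_smul, sub_smul, add_smul, mul_comm, mul_sub]
      abel
    rwa [h2] at h1
  have hc0 : c = 0 := by nlinarith [sq_nonneg (m - c), sq_nonneg m, sq_nonneg c, sq_nonneg (m + c)]
  have hm0 : m = 0 := by
    rw [hc0] at h9
    simpa using h9
  have hcv : c = S [z', z] + (lam - 1) * Y [z'] := by
    rw [hc, hW, rd_apply, TY.add_apply, smul_apply, hR, rd_apply, TY.add_apply, List.nil_append]
    show S [z', z] + Y [z', z] + (lam - 1) * Y [z'] = _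
    rw [hY [z', z] (by simp), add_zero]
  refine ⟨by rw [hc0] at hcv; linarith, fun x => ?_⟩
  have h10 : M [x] = 0 := by rw [heq x y]; exact hm0
  have h11 : M [x] = S [x, z', z] - lam * Y [x] := by
    rw [hM, TY.add_apply, smul_apply, hc0, hW, rd_apply, TY.add_apply, smul_apply, hR, rd_apply,
      TY.add_apply]
    show S [x, z', z] + Y [x, z', z] + (lam - 1) * Y [x, z'] + (0 - lam) * Y [x] = _
    rw [hY [x, z', z] (by simp), hY [x, z'] (by simp)]
    ring
  rw [h10] at h11
  linarith

end

end Pool.Agent.H35.S8
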